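import Pool.Agent.Helper96.KimInv

/-!
# The trace of a partial trace
-/

open CategoryTheory MonoidalCategory Limits BraidedCategory

universe u v w

namespace Pool.Agent.Helper96.Kim

open Pool.Agent.TH90.AB Pool.Agent.TH90.Kim

set_option linter.unusedSectionVars false

variable {𝒜 : Type u} [Category.{v} 𝒜] [MonoidalCategory 𝒜] [SymmetricCategory 𝒜]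
  [hdual : ∀ X : 𝒜, HasRightDual X]

/-- The trace can be computed with any dual. -/
lemma tr_eq_of_pairing {M : 𝒜} (f : M ⟶ M) (D' : 𝒜) [ExactPairing M D'] :
    tr f = η_ M D' ≫ f ▷ D' ≫ (β_ M D').hom ≫ ε_ M D' := by
  let φ : Mᘁ ⟶ D' := @rightAdjointMate _ _ _ M M ⟨D'⟩ _ (𝟙 M)
  have h1 : η_ M Mᘁ ≫ M ◁ φ = η_ M D' := by
    have := @coevaluation_comp_rightAdjointMate _ _ _ M M ⟨D'⟩ _ (𝟙 M)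
    rw [id_whiskerRight, Category.comp_id] at this
    exact this
  have h2 : φ ▷ M ≫ ε_ M D' = ε_ M Mᘁ := by
    have := @rightAdjointMate_comp_evaluation _ _ _ M M ⟨D'⟩ _ (𝟙 M)
    rw [MonoidalCategory.whiskerLeft_id, Category.id_comp] at this
    exact this
  rw [← h1, Category.assoc, whisker_exchange_assoc, braiding_naturality_right_assoc, h2]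
  rfl

lemma ev_tensor (X P : 𝒜) :
    (β_ (X ⊗ P) (Pᘁ ⊗ Xᘁ)).hom ≫ (𝟙 _ ⊗≫ Pᘁ ◁ (ε_ X Xᘁ ▷ P) ⊗≫ ε_ P Pᘁ) =
      𝟙 ((X ⊗ P) ⊗ Pᘁ ⊗ Xᘁ) ⊗≫ X ◁ (ev P ▷ Xᘁ) ⊗≫ ev X := by
  have e2 : 𝟙 ((X ⊗ Xᘁ) ⊗ Pᘁ) ⊗≫ X ◁ (β_ Xᘁ Pᘁ).hom ⊗≫ (β_ X Pᘁ).hom ▷ Xᘁ ⊗≫ Pᘁ ◁ ev X =
      ev X ▷ Pᘁ ⊗≫ 𝟙 (Pᘁ ⊗ 𝟙_ 𝒜) := by
    calc 𝟙 ((X ⊗ Xᘁ) ⊗ Pᘁ) ⊗≫ X ◁ (β_ Xᘁ Pᘁ).hom ⊗≫ (β_ X Pᘁ).hom ▷ Xᘁ ⊗≫ Pᘁ ◁ ev X =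
        (β_ (X ⊗ Xᘁ) Pᘁ).hom ≫ Pᘁ ◁ ev X := by
          rw [braiding_tensor_left_hom]
          monoidal
      _ = ev X ▷ Pᘁ ≫ (β_ (𝟙_ 𝒜) Pᘁ).hom := (braiding_naturality_left _ _).symm
      _ = _ := by
          rw [braiding_tensorUnit_left]
          monoidal
  have h1 : (β_ X Pᘁ).hom ▷ Xᘁ ⊗≫ Pᘁ ◁ ev X =
      𝟙 ((X ⊗ Pᘁ) ⊗ Xᘁ) ⊗≫ X ◁ (β_ Pᘁ Xᘁ).hom ⊗≫ ev X ▷ Pᘁ ⊗≫ 𝟙 (Pᘁ ⊗ 𝟙_ 𝒜) := by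
    calc (β_ X Pᘁ).hom ▷ Xᘁ ⊗≫ Pᘁ ◁ ev X =
        𝟙 ((X ⊗ Pᘁ) ⊗ Xᘁ) ⊗≫ X ◁ 𝟙 (Pᘁ ⊗ Xᘁ) ⊗≫ (β_ X Pᘁ).hom ▷ Xᘁ ⊗≫ Pᘁ ◁ ev X := by
            monoidal
      _ = 𝟙 ((X ⊗ Pᘁ) ⊗ Xᘁ) ⊗≫ X ◁ ((β_ Pᘁ Xᘁ).hom ≫ (β_ Xᘁ Pᘁ).hom) ⊗≫
          (β_ X Pᘁ).hom ▷ Xᘁ ⊗≫ Pᘁ ◁ ev X := by
            rw [SymmetricCategory.symmetry]
      _ = 𝟙 ((X ⊗ Pᘁ) ⊗ Xᘁ) ⊗≫ X ◁ (β_ Pᘁ Xᘁ).hom ⊗≫ (𝟙 ((X ⊗ Xᘁ) ⊗ Pᘁ) ⊗≫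
          X ◁ (β_ Xᘁ Pᘁ).hom ⊗≫ (β_ X Pᘁ).hom ▷ Xᘁ ⊗≫ Pᘁ ◁ ev X) := by
            monoidal
      _ = _ := by
            rw [e2]
  have h2 : (β_ (Pᘁ ⊗ P) Xᘁ).hom ≫ Xᘁ ◁ ε_ P Pᘁ = ε_ P Pᘁ ▷ Xᘁ ≫ (β_ (𝟙_ 𝒜) Xᘁ).hom :=
    (braiding_naturality_left _ _).symm
  calc (β_ (X ⊗ P) (Pᘁ ⊗ Xᘁ)).hom ≫ (𝟙 _ ⊗≫ Pᘁ ◁ (ε_ X Xᘁ ▷ P) ⊗≫ ε_ P Pᘁ) =
      𝟙 ((X ⊗ P) ⊗ Pᘁ ⊗ Xᘁ) ⊗≫ X ◁ (β_ P (Pᘁ ⊗ Xᘁ)).hom ⊗≫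
        ((β_ X Pᘁ).hom ▷ Xᘁ ⊗≫ Pᘁ ◁ ev X) ▷ P ⊗≫ ε_ P Pᘁ := by
          rw [braiding_tensor_left_hom, braiding_tensor_right_hom X]
          simp only [ev]
          monoidal
    _ = 𝟙 ((X ⊗ P) ⊗ Pᘁ ⊗ Xᘁ) ⊗≫ X ◁ (β_ P (Pᘁ ⊗ Xᘁ)).hom ⊗≫ (X ◁ (β_ Pᘁ Xᘁ).hom) ▷ P ⊗≫
          (ev X ▷ (Pᘁ ⊗ P) ≫ 𝟙_ 𝒜 ◁ ε_ P Pᘁ) ⊗≫ 𝟙 (𝟙_ 𝒜) := by
          rw [h1]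
          monoidal
    _ = 𝟙 ((X ⊗ P) ⊗ Pᘁ ⊗ Xᘁ) ⊗≫ X ◁ (β_ P (Pᘁ ⊗ Xᘁ)).hom ⊗≫ (X ◁ (β_ Pᘁ Xᘁ).hom) ▷ P ⊗≫
          (X ⊗ Xᘁ) ◁ ε_ P Pᘁ ⊗≫ ev X := by
          rw [← whisker_exchange]
          monoidal
    _ = 𝟙 ((X ⊗ P) ⊗ Pᘁ ⊗ Xᘁ) ⊗≫ X ◁ ((β_ P Pᘁ).hom ▷ Xᘁ) ⊗≫
          X ◁ ((β_ (Pᘁ ⊗ P) Xᘁ).hom ≫ Xᘁ ◁ ε_ P Pᘁ) ⊗≫ ev X := by
          rw [braiding_tensor_right_hom P, braiding_tensor_left_hom Pᘁ]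
          monoidal
    _ = _ := by
          rw [h2, braiding_tensorUnit_left]
          simp only [ev]
          monoidal

/-- The trace of the partial trace is the trace. -/
lemma tr_ptr {X P : 𝒜} (g : X ⊗ P ⟶ X ⊗ P) : tr (ptr g) = tr g := by
  rw [tr_eq_of_pairing g (Pᘁ ⊗ Xᘁ), ExactPairing.tensor_coevaluation,
    ExactPairing.tensor_evaluation, ev_tensor]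
  simp only [tr_eq, ptr]
  monoidal

end Pool.Agent.Helper96.Kim
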