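import Pool.Agent.Helper96.KimReal

/-!
# Rank one objects and realisations, continued
-/

open CategoryTheory MonoidalCategory Limits BraidedCategory

universe u v w

namespace Pool.Agent.Helper96.Kim

open Pool.Agent.TH90.AB Pool.Agent.TH90.Kim

set_option linter.unusedSectionVars false

variable {𝒜 : Type u} [Category.{v} 𝒜] [MonoidalCategory 𝒜] [SymmetricCategory 𝒜]
  [Preadditive 𝒜] [MonoidalPreadditive 𝒜] [Linear ℚ 𝒜] [MonoidalLinear ℚ 𝒜]

section complete

variable [IsIdempotentComplete 𝒜]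

lemma exists_zero (M : 𝒜) : ∃ (Q : 𝒜) (j : Q ⟶ M) (s : M ⟶ Q), j ≫ s = 𝟙 Q ∧ s ≫ j = 0 ∧
    𝟙 Q = 0 := by
  obtain ⟨Q, j, s, hjs, hsj⟩ := IsIdempotentComplete.idempotents_split M (0 : M ⟶ M) (by simp)
  refine ⟨Q, j, s, hjs, hsj, ?_⟩
  have h1 : 𝟙 Q = j ≫ (s ≫ j) ≫ s := by
    rw [Category.assoc, ← Category.assoc j, hjs, Category.id_comp]
  rw [h1, hsj, zero_comp, comp_zero]

omit [IsIdempotentComplete 𝒜] in
lemma powZero_of_zero {ε : ℚ} {Q : 𝒜} (h : 𝟙 Q = 0) : PowZero ε Q 1 := by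
  intro Y g _
  have h1 : g = (𝟙_ 𝒜) ◁ 𝟙 Q ≫ g := by simp
  rw [h1, h, MonoidalPreadditive.whiskerLeft_zero, zero_comp]

lemma kf_of_even {M : 𝒜} {n : ℕ} (h : PowZero (-1) M n) : KimuraFinite M := by
  obtain ⟨Q, j, s, hjs, hsj, h0⟩ := exists_zero M
  refine ⟨M, Q, ⟨⟨𝟙 M, 𝟙 M, j, s, by simp, hjs, ?_⟩⟩, ⟨n, h⟩, ⟨1, powZero_of_zero h0⟩⟩
  rw [hsj, Category.comp_id, add_zero]

lemma kf_of_odd {M : 𝒜} {n : ℕ} (h : PowZero 1 M n) : KimuraFinite M := by
  obtain ⟨Q, j, s, hjs, hsj, h0⟩ := exists_zero M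
  refine ⟨Q, M, ⟨⟨j, s, 𝟙 M, 𝟙 M, hjs, by simp, ?_⟩⟩, ⟨1, powZero_of_zero h0⟩, ⟨n, h⟩⟩
  rw [hsj, Category.comp_id, zero_add]

lemma exists_isPower {ε : ℚ} (hε : ε * ε = 1) (M : 𝒜) (n : ℕ) : ∃ D, IsPower ε M n D := by
  obtain ⟨D, i, r, hir, hri⟩ := IsIdempotentComplete.idempotents_split (T M n) (sy ε M n)
    (isSy hε M n).idem
  have hr : r = sy ε M n ≫ r := by rw [← hri, Category.assoc, hir, Category.comp_id]
  refine ⟨D, r, ?_, ?_⟩
  · intro s hs
    rw [hr, ← Category.assoc, (isSy hε M n).left s hs, Linear.smul_comp]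
  · intro Y g hg
    refine ⟨i ≫ g, ?_, ?_⟩
    · change r ≫ i ≫ g = g
      rw [← Category.assoc, hri, sy_comp hε hg]
    · intro h hh
      have hh' : r ≫ h = g := hh
      rw [← hh', ← Category.assoc, hir, Category.id_comp]

end complete

variable {K : Type w} [Field K] [CharZero K] (F : Realisation 𝒜 K)

include F in
lemma unit_ne : 𝟙 (𝟙_ 𝒜) ≠ 0 := by
  intro h
  apply F.one_ne
  rw [← F.map_id (𝟙_ 𝒜) F.one, h, F.map_zero']

/-- On a space of dimension one parity is a sign. -/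
lemma par_rank_one {L : 𝒜} (h : Module.finrank K (F.V L) = 1) :
    ∃ δ : ℚ, (δ = 1 ∨ δ = -1) ∧ ∀ x, F.par L x = (δ : K) • x := by
  obtain ⟨v, hv, hspan⟩ := finrank_eq_one_iff'.mp h
  obtain ⟨c, hc⟩ := hspan (F.par L v)
  have h1 : (c * c) • v = (1 : K) • v := by
    have h2 := F.par_par L v
    rw [← hc, _root_.map_smul, ← hc, smul_smul] at h2
    rw [h2, one_smul]
  have h3 : c * c = 1 := smul_left_injective K hv h1
  have h4 : ∀ x, F.par L x = c • x := by
    intro x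
    obtain ⟨a, rfl⟩ := hspan x
    rw [_root_.map_smul, ← hc, smul_comm]
  rcases mul_self_eq_one_iff.mp h3 with rfl | rfl
  · exact ⟨1, Or.inl rfl, fun x => by rw [h4]; simp⟩
  · exact ⟨-1, Or.inr rfl, fun x => by rw [h4]; simp⟩

variable [hdual : ∀ X : 𝒜, HasRightDual X]
  (hunit : ∀ f : 𝟙_ 𝒜 ⟶ 𝟙_ 𝒜, ∃ q : ℚ, f = q • 𝟙 (𝟙_ 𝒜))

include hunit

/-- A Kimura-finite object of pure parity and dimension `d` is killed by the power `d + 1`. -/
lemma powZero_dim {X : 𝒜} (hX : KimuraFinite X) {δ : ℚ} (hδ : δ = 1 ∨ δ = -1)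
    (hpar : ∀ x, F.par X x = (δ : K) • x) : PowZero (-δ) X (Module.finrank K (F.V X) + 1) := by
  have hδδ : δ * δ = 1 := by rcases hδ with rfl | rfl <;> norm_num
  have hε : (-δ) * (-δ) = 1 := by linear_combination hδδ
  obtain ⟨n, hn⟩ := F.powZero_of_parity hunit hX hδ (𝟙 X) (𝟙 X) (by simp) hpar
  have htr := F.tr_scalar hunit hδδ hpar
  match n, hn with
  | 0, hn =>
    exfalso
    exact unit_ne F (hn _ (𝟙 _) (fun s hs => by cases hs))
  | m + 1, hn =>
    rcases le_total (Module.finrank K (F.V X)) m with h | h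
    · refine PowZero.down' hε htr ?_ h hn
      intro k hk h1
      have h2 : δ * ((Module.finrank K (F.V X) : ℚ) - k) = 0 := by linear_combination h1
      have h3 : δ ≠ 0 := by rintro rfl; norm_num at hδδ
      have h4 : (Module.finrank K (F.V X) : ℚ) = k := sub_eq_zero.mp
        ((mul_eq_zero.mp h2).resolve_left h3)
      have h5 : Module.finrank K (F.V X) = k := by exact_mod_cast h4
      omega
    · exact PowZero.up' hε hn h

/-- Kimura-finite objects of rank one are invertible. -/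
lemma invertible_of_rank_one {L : 𝒜} (h : Module.finrank K (F.V L) = 1) (hL : KimuraFinite L) :
    Invertible L := by
  obtain ⟨δ, hδ, hpar⟩ := par_rank_one F h
  have hδδ : δ * δ = 1 := by rcases hδ with rfl | rfl <;> norm_num
  have hε : (-δ) * (-δ) = 1 := by linear_combination hδδ
  have h1 := powZero_dim F hunit hL hδ hpar
  rw [h] at h1
  have h2 := braiding_of_powZero hε h1
  rw [neg_neg] at h2
  refine invertible_of_braiding hδδ h2 ?_
  have h3 := F.tr_scalar hunit hδδ hpar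
  rw [h] at h3
  simpa using h3

omit hunit hdual in
lemma par_T {M : 𝒜} {δ : ℚ} (hpar : ∀ x, F.par M x = (δ : K) • x) (n : ℕ) (x : F.V (T M n)) :
    F.par _ x = ((δ ^ n : ℚ) : K) • x := by
  induction n with
  | zero =>
    obtain ⟨c, rfl⟩ := F.span_one x
    rw [_root_.map_smul, F.par_one]
    simp
  | succ n ih =>
    rw [pow_succ]
    exact Realisation.par_tensor F ih hpar x

/-- The top power has rank one. -/
lemma rank_top {M D : 𝒜} {δ : ℚ} (hδ : δ = 1 ∨ δ = -1) (hpar : ∀ x, F.par M x = (δ : K) • x)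
    (hD : IsPower (-δ) M (Module.finrank K (F.V M)) D) : Module.finrank K (F.V D) = 1 := by
  have hδδ : δ * δ = 1 := by rcases hδ with rfl | rfl <;> norm_num
  have hε : (-δ) * (-δ) = 1 := by linear_combination hδδ
  have h0 := unit_ne F
  set d := Module.finrank K (F.V M) with hd
  obtain ⟨i, r, hir, hri⟩ := hD.split hε
  have hparD : ∀ x, F.par D x = ((δ ^ d : ℚ) : K) • x := fun x =>
    F.par_retract i r hir (par_T F hpar d) x
  have hδd : δ ^ d * δ ^ d = 1 := by rw [← mul_pow, hδδ, one_pow]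
  have h1 := F.tr_scalar hunit hδd hparD
  have htr := F.tr_scalar hunit hδδ hpar
  have h2 : tr (𝟙 D) = (∏ k ∈ Finset.range d, (δ * d + (-δ) * k) / (k + 1)) • 𝟙 (𝟙_ 𝒜) := by
    rw [← hir, tr_comm, hri, tr_sy hε htr]
  have h3 : (∏ k ∈ Finset.range d, (δ * (d : ℚ) + (-δ) * k) / (k + 1)) = δ ^ d := by
    have e1 : ∀ k ∈ Finset.range d, (δ * (d : ℚ) + (-δ) * k) / (k + 1) =
        δ * (((d - k : ℕ) : ℚ) / ((k + 1 : ℕ) : ℚ)) := by
      intro k hk
      rw [Nat.cast_sub (Finset.mem_range.mp hk).le]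
      push_cast
      ring
    rw [Finset.prod_congr rfl e1, Finset.prod_mul_distrib, Finset.prod_const, Finset.card_range,
      Finset.prod_div_distrib]
    have e2 : ∏ k ∈ Finset.range d, ((d - k : ℕ) : ℚ) = ∏ k ∈ Finset.range d, ((k + 1 : ℕ) : ℚ) := by
      rw [← Finset.prod_range_reflect (fun k => ((k + 1 : ℕ) : ℚ)) d]
      refine Finset.prod_congr rfl fun k hk => ?_
      have := Finset.mem_range.mp hk
      congr 1
      omega
    have e3 : ∏ k ∈ Finset.range d, ((k + 1 : ℕ) : ℚ) ≠ 0 :=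
      Finset.prod_ne_zero_iff.mpr fun k _ => by positivity
    rw [e2, div_self e3, mul_one]
  rw [h2, h3] at h1
  have h4 := smul_id_inj h0 h1
  have h5 : (Module.finrank K (F.V D) : ℚ) = 1 := by
    calc (Module.finrank K (F.V D) : ℚ) = (δ ^ d * δ ^ d) * Module.finrank K (F.V D) := by
          rw [hδd, one_mul]
      _ = δ ^ d * (δ ^ d * Module.finrank K (F.V D)) := by ring
      _ = 1 := by rw [← h4, hδd]
  exact_mod_cast h5

/-- If the top power of an object of pure parity is invertible, then the object is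
finite-dimensional. -/
theorem powZero_of_top {M D : 𝒜} {δ : ℚ} (hδ : δ = 1 ∨ δ = -1)
    (hpar : ∀ x, F.par M x = (δ : K) • x) (hd : Module.finrank K (F.V M) ≠ 0)
    (hD : IsPower (-δ) M (Module.finrank K (F.V M)) D) (hinv : Invertible D) :
    PowZero (-δ) M (Module.finrank K (F.V M) + 1) := by
  have hδδ : δ * δ = 1 := by rcases hδ with rfl | rfl <;> norm_num
  have hε : (-δ) * (-δ) = 1 := by linear_combination hδδ
  have h0 := unit_ne F
  have htr := F.tr_scalar hunit hδδ hpar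
  obtain ⟨i, r, hir, hri⟩ := hD.split hε
  obtain ⟨c, hc, hβ, hDtr⟩ := hinv.data hunit h0
  generalize Module.finrank K (F.V M) = d at *
  obtain ⟨m, rfl⟩ : ∃ m, d = m + 1 := ⟨d - 1, by omega⟩
  rcases main_aux hε htr h0 i r hir hri hc hβ hDtr with h | h
  · exact h.1
  · exfalso
    have h1 := h.2
    have h2 : δ * ((m : ℚ) + 2) = 0 := by
      push_cast at h1
      linear_combination h1
    have h3 : δ ≠ 0 := by rintro rfl; norm_num at hδδ
    have h4 : ((m : ℚ) + 2) ≠ 0 := by positivity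
    exact (mul_ne_zero h3 h4) h2

variable [IsIdempotentComplete 𝒜]

theorem kf_of_top {M D : 𝒜} {δ : ℚ} (hδ : δ = 1 ∨ δ = -1)
    (hpar : ∀ x, F.par M x = (δ : K) • x) (hd : Module.finrank K (F.V M) ≠ 0)
    (hD : IsPower (-δ) M (Module.finrank K (F.V M)) D) (hinv : Invertible D) :
    KimuraFinite M := by
  have h := powZero_of_top F hunit hδ hpar hd hD hinv
  rcases hδ with rfl | rfl
  · exact kf_of_even h
  · rw [neg_neg] at h
    exact kf_of_odd h

end Pool.Agent.Helper96.Kim
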