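import Pool.Agent.Helper96.KimRank
import Mathlib.CategoryTheory.Preadditive.Biproducts

/-!
# The conjecture of Kimura and objects of rank one
-/

open CategoryTheory MonoidalCategory Limits BraidedCategory

universe u v w

namespace Pool.Agent.Helper96.Kim

open Pool.Agent.TH90.AB Pool.Agent.TH90.Kim

set_option linter.unusedSectionVars false

variable {𝒜 : Type u} [Category.{v} 𝒜] [MonoidalCategory 𝒜] [SymmetricCategory 𝒜]
  [Preadditive 𝒜] [MonoidalPreadditive 𝒜] [Linear ℚ 𝒜] [MonoidalLinear ℚ 𝒜]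
  {K : Type w} [Field K] [CharZero K] (F : Realisation 𝒜 K)
  [hdual : ∀ X : 𝒜, HasRightDual X]
  (hunit : ∀ f : 𝟙_ 𝒜 ⟶ 𝟙_ 𝒜, ∃ q : ℚ, f = q • 𝟙 (𝟙_ 𝒜))

include hunit

/-- If all objects of rank one are invertible, then objects without realisation are zero. -/
lemma zero_of_rank_zero [HasBinaryBiproducts 𝒜]
    (h1 : ∀ L : 𝒜, Module.finrank K (F.V L) = 1 → Invertible L) {P : 𝒜}
    (hP : Module.finrank K (F.V P) = 0) : 𝟙 P = 0 := by
  have hP0 : ∀ x : F.V P, x = 0 := by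
    intro x
    by_contra hx
    exact F.finrank_ne ⟨x, hx⟩ hP
  have hL : Module.finrank K (F.V (𝟙_ 𝒜 ⊞ P)) = 1 := by
    rw [finrank_eq_one_iff']
    refine ⟨F.map (biprod.inl : 𝟙_ 𝒜 ⟶ 𝟙_ 𝒜 ⊞ P) F.one, ?_, ?_⟩
    · intro h
      apply F.one_ne
      have h2 := congrArg (F.map (biprod.fst : 𝟙_ 𝒜 ⊞ P ⟶ 𝟙_ 𝒜)) h
      rw [← F.map_comp, biprod.inl_fst, F.map_id, _root_.map_zero] at h2
      exact h2
    · intro w
      obtain ⟨c, hc⟩ := F.span_one (F.map (biprod.fst : 𝟙_ 𝒜 ⊞ P ⟶ 𝟙_ 𝒜) w)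
      refine ⟨c, ?_⟩
      have h3 : w = F.map (biprod.fst ≫ biprod.inl + biprod.snd ≫ biprod.inr :
          𝟙_ 𝒜 ⊞ P ⟶ 𝟙_ 𝒜 ⊞ P) w := by rw [biprod.total, F.map_id]
      conv_rhs => rw [h3]
      rw [F.map_add, F.map_comp, F.map_comp, hP0 (F.map biprod.snd w), _root_.map_zero, add_zero,
        hc, _root_.map_smul]
  obtain ⟨q, hq⟩ := (h1 _ hL).scalar hunit
    (biprod.fst ≫ biprod.inl : 𝟙_ 𝒜 ⊞ P ⟶ 𝟙_ 𝒜 ⊞ P)
  have e1 : q = 1 := by
    apply smul_id_inj (X := 𝟙_ 𝒜) (unit_ne F)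
    have h2 := congrArg (fun f => biprod.inl ≫ f ≫ biprod.fst) hq
    simp only [Category.assoc, biprod.inl_fst, Linear.comp_smul, Linear.smul_comp,
      Category.id_comp, Category.comp_id, biprod.inl_fst_assoc] at h2
    rw [one_smul]
    exact h2.symm
  have h2 := congrArg (fun f => biprod.inr ≫ f ≫ biprod.snd) hq
  simp only [Category.assoc, biprod.inr_fst_assoc, Linear.comp_smul, Linear.smul_comp,
      Category.id_comp, Category.comp_id, biprod.inr_snd, zero_comp, comp_zero, e1, one_smul] at h2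
  exact h2.symm

/-- Objects of rank one are finite-dimensional if and only if they are invertible. -/
lemma kf_iff_invertible [IsIdempotentComplete 𝒜] {L : 𝒜}
    (h : Module.finrank K (F.V L) = 1) : KimuraFinite L ↔ Invertible L := by
  refine ⟨invertible_of_rank_one F hunit h, fun hL => ?_⟩
  obtain ⟨c, hc, hβ, -⟩ := hL.data hunit (unit_ne F)
  have h2 := powZero_two_of_braiding hc hβ
  rcases mul_self_eq_one_iff.mp hc with rfl | rfl
  · exact kf_of_even h2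
  · rw [neg_neg] at h2
    exact kf_of_odd h2

/-- Parts of pure parity. -/
lemma exists_powZero [HasBinaryBiproducts 𝒜] [IsIdempotentComplete 𝒜]
    (h1 : ∀ L : 𝒜, Module.finrank K (F.V L) = 1 → Invertible L) {P : 𝒜} {δ : ℚ}
    (hδ : δ = 1 ∨ δ = -1) (hpar : ∀ x, F.par P x = (δ : K) • x) : ∃ n, PowZero (-δ) P n := by
  have hδδ : δ * δ = 1 := by rcases hδ with rfl | rfl <;> norm_num
  have hε : (-δ) * (-δ) = 1 := by linear_combination hδδ
  rcases eq_or_ne (Module.finrank K (F.V P)) 0 with h0 | h0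
  · exact ⟨1, powZero_of_zero (zero_of_rank_zero F hunit h1 h0)⟩
  · obtain ⟨D, hD⟩ := exists_isPower hε P (Module.finrank K (F.V P))
    exact ⟨_, powZero_of_top F hunit hδ hpar h0 hD (h1 D (rank_top F hunit hδ hpar hD))⟩

theorem global [HasBinaryBiproducts 𝒜] [IsIdempotentComplete 𝒜] : List.TFAE [
    ∀ X : 𝒜, KimuraFinite X,
    (∀ X : 𝒜, ∃ P Q, Nonempty (F.EO X P Q)) ∧
      ∀ L : 𝒜, Module.finrank K (F.V L) = 1 → KimuraFinite L,
    (∀ X : 𝒜, ∃ P Q, Nonempty (F.EO X P Q)) ∧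
      ∀ L : 𝒜, Module.finrank K (F.V L) = 1 → Invertible L] := by
  tfae_have 1 → 2 := by
    intro h
    refine ⟨fun X => ?_, fun L _ => h L⟩
    obtain ⟨P, Q, ⟨S⟩, ⟨n, hP⟩, ⟨m, hQ⟩⟩ := h X
    exact ⟨P, Q, ⟨F.eo_of_powZero S hP hQ⟩⟩
  tfae_have 2 → 3 := fun h => ⟨h.1, fun L hL => (kf_iff_invertible F hunit hL).mp (h.2 L hL)⟩
  tfae_have 3 → 1 := by
    rintro ⟨h1, h2⟩ X
    obtain ⟨P, Q, ⟨E⟩⟩ := h1 X
    refine ⟨P, Q, ⟨E.S⟩, ?_, ?_⟩
    · exact exists_powZero F hunit h2 (Or.inl rfl) (fun x => by rw [E.even]; simp)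
    · have := exists_powZero F hunit h2 (δ := -1) (Or.inr rfl) (fun x => by rw [E.odd]; simp)
      rwa [neg_neg] at this
  tfae_finish

end Pool.Agent.Helper96.Kim
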