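import Pool.Graph.R_pool_sql_team_seeded_ab47071d.TH90.Kim.Light

/-!
# Invertible objects and powers
-/

open CategoryTheory MonoidalCategory Limits BraidedCategory

universe u v w

namespace Pool.Agent.Helper96.Kim

open Pool.Agent.TH90.AB Pool.Agent.TH90.Kim

set_option linter.unusedSectionVars false

variable {𝒜 : Type u} [Category.{v} 𝒜] [MonoidalCategory 𝒜] [SymmetricCategory 𝒜]

/-- `D` has an inverse for the tensor product. -/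
def Invertible (D : 𝒜) : Prop := ∃ D' : 𝒜, Nonempty (D ⊗ D' ≅ 𝟙_ 𝒜)

variable [Preadditive 𝒜] [MonoidalPreadditive 𝒜] [Linear ℚ 𝒜] [MonoidalLinear ℚ 𝒜]

/-- `D` is the `n`-th symmetric (`ε = 1`) or exterior (`ε = -1`) power of `M`: there is a universal
symmetric, resp. alternating, morphism from the `n`-th tensor power of `M` to `D`. -/
def IsPower (ε : ℚ) (M : 𝒜) (n : ℕ) (D : 𝒜) : Prop :=
  ∃ r : T M n ⟶ D, Signed ε r ∧ ∀ (Y : 𝒜) (g : T M n ⟶ Y), Signed ε g → ∃! h : D ⟶ Y, r ≫ h = g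

section basic

lemma sw_of_braiding {D : 𝒜} {c : ℚ} (h : (β_ D D).hom = c • 𝟙 _) (X : 𝒜) :
    sw X D = c • 𝟙 _ := by
  rw [sw, h, MonoidalLinear.whiskerLeft_smul, Linear.smul_comp, Linear.comp_smul]
  simp

lemma braiding_of_powZero {ε : ℚ} (hε : ε * ε = 1) {D : 𝒜} (h : PowZero ε D 2) :
    (β_ D D).hom = (-ε) • 𝟙 _ := by
  have h1 := (powZero_iff hε D 2).mp h
  have h2 : sy ε D 2 = (2 : ℚ)⁻¹ • (𝟙 _ + ε • sw (T D 0) D) := by
    rw [sy_succ]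
    simp [sy]
  rw [h2] at h1
  have h3 : 𝟙 _ + ε • sw (T D 0) D = 0 := by
    have := (smul_eq_zero_iff_right (R := ℚ) (by norm_num : ((2 : ℚ)⁻¹) ≠ 0)).mp h1
    exact this
  have h4 : sw (T D 0) D = (-ε) • 𝟙 _ := by
    have h5 : ε • (𝟙 _ + ε • sw (T D 0) D) = 0 := by rw [h3, smul_zero]
    rw [smul_add, smul_smul, hε, one_smul] at h5
    rw [neg_smul]
    exact (neg_eq_of_add_eq_zero_right h5).symm
  have h6 : (𝟙_ 𝒜) ◁ (β_ D D).hom = (-ε) • 𝟙 _ := by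
    have : (𝟙_ 𝒜) ◁ (β_ D D).hom = (α_ (𝟙_ 𝒜) D D).inv ≫ sw (T D 0) D ≫ (α_ (𝟙_ 𝒜) D D).hom := by
      simp [sw]
    rw [this, h4, Linear.smul_comp, Linear.comp_smul]
    simp
  have h7 : (β_ D D).hom = (λ_ (D ⊗ D)).inv ≫ (𝟙_ 𝒜) ◁ (β_ D D).hom ≫ (λ_ (D ⊗ D)).hom := by
    simp
  rw [h7, h6, Linear.smul_comp, Linear.comp_smul]
  simp

lemma powZero_two_of_braiding {c : ℚ} (hc : c * c = 1) {D : 𝒜} (h : (β_ D D).hom = c • 𝟙 _) :
    PowZero (-c) D 2 := by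
  have hc' : (-c) * (-c) = 1 := by linear_combination hc
  rw [powZero_iff hc', sy_succ]
  have h2 := sw_of_braiding h (T D 0)
  simp only [sy, id_whiskerRight, Category.comp_id, Category.id_comp, h2]
  rw [smul_smul]
  have e1 : -c * (((0 : ℕ) : ℚ) + 1) * c = -1 := by
    push_cast
    linear_combination -hc
  rw [e1, neg_one_smul, add_neg_cancel, smul_zero]

end basic

section trace

variable [hdual : ∀ X : 𝒜, HasRightDual X]

lemma ptr_id {X P : 𝒜} {c : ℚ} (h : tr (𝟙 P) = c • 𝟙 (𝟙_ 𝒜)) :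
    ptr (𝟙 (X ⊗ P)) = c • 𝟙 X := by
  rw [← MonoidalCategory.whiskerLeft_id, ptr_scalar h]

lemma ptr_whiskerRight {X Y P : 𝒜} (f : X ⟶ Y) {c : ℚ} (h : tr (𝟙 P) = c • 𝟙 (𝟙_ 𝒜)) :
    ptr (f ▷ P) = c • f := by
  have := ptr_left f (𝟙 (Y ⊗ P))
  rw [Category.comp_id, ptr_id h, Linear.comp_smul, Category.comp_id] at this
  exact this

/-- All endomorphisms of `X ⊗ D` come from `X`, if the symmetry of `D` is a scalar. -/
lemma full_right {D : 𝒜} {c c' : ℚ} (hc : c * c = 1) (hβ : (β_ D D).hom = c • 𝟙 _)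
    (htr : tr (𝟙 D) = c' • 𝟙 (𝟙_ 𝒜)) {X : 𝒜} (w : X ⊗ D ⟶ X ⊗ D) : c' • w = ptr w ▷ D := by
  have h := ptr_sw_conj w
  rw [sw_of_braiding hβ, Linear.smul_comp, Linear.comp_smul, Linear.comp_smul, smul_smul, hc,
    one_smul, Category.id_comp, Category.comp_id, ptr_whiskerRight w htr] at h
  exact h

lemma full_left {D : 𝒜} {c c' : ℚ} (hc : c * c = 1) (hβ : (β_ D D).hom = c • 𝟙 _)
    (htr : tr (𝟙 D) = c' • 𝟙 (𝟙_ 𝒜)) (hc' : c' ≠ 0) {X : 𝒜} (w : D ⊗ X ⟶ D ⊗ X) :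
    ∃ g : X ⟶ X, w = D ◁ g := by
  have h := full_right hc hβ htr ((β_ X D).hom ≫ w ≫ (β_ D X).hom)
  refine ⟨c'⁻¹ • ptr ((β_ X D).hom ≫ w ≫ (β_ D X).hom), ?_⟩
  rw [MonoidalLinear.whiskerLeft_smul]
  have h1 : D ◁ ptr ((β_ X D).hom ≫ w ≫ (β_ D X).hom) =
      (β_ D X).hom ≫ (ptr ((β_ X D).hom ≫ w ≫ (β_ D X).hom) ▷ D) ≫ (β_ X D).hom := by
    generalize ptr ((β_ X D).hom ≫ w ≫ (β_ D X).hom) = z
    rw [braiding_naturality_left, SymmetricCategory.symmetry_assoc]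
  rw [h1, ← h, Linear.smul_comp, Linear.comp_smul, smul_smul, inv_mul_cancel₀ hc', one_smul]
  simp

variable {ε : ℚ} {M : 𝒜}

lemma sy_sw {n : ℕ} (hε : ε * ε = 1) (M : 𝒜) : sy ε M (n + 2) ≫ sw (T M n) M =
    ε • sy ε M (n + 2) := (isSy hε M (n + 2)).right _ (Adj.last n)

lemma sw_sy {n : ℕ} (hε : ε * ε = 1) (M : 𝒜) : sw (T M n) M ≫ sy ε M (n + 2) =
    ε • sy ε M (n + 2) := (isSy hε M (n + 2)).left _ (Adj.last n)

/-- `g` on the last factor and a transposition. -/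
lemma whisker_sw {X P : 𝒜} (g : P ⟶ P) : (X ⊗ P) ◁ g ≫ sw X P = sw X P ≫ (X ◁ g) ▷ P := by
  have h1 : (X ⊗ P) ◁ g ≫ (α_ X P P).hom = (α_ X P P).hom ≫ X ◁ P ◁ g := by simp
  have h2 : X ◁ g ▷ P ≫ (α_ X P P).inv = (α_ X P P).inv ≫ (X ◁ g) ▷ P := by simp
  simp only [sw, Category.assoc]
  rw [reassoc_of% h1, ← whiskerLeft_comp_assoc, braiding_naturality_right,
    whiskerLeft_comp_assoc, h2]

/-- Descent: if the (anti)symmetriser followed by `g` on the last factor is zero, then this is true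
for the smaller ones. -/
lemma descend {t : ℚ} (hε : ε * ε = 1) (htr : tr (𝟙 M) = t • 𝟙 (𝟙_ 𝒜)) {g : M ⟶ M} (n : ℕ)
    (hn : ∀ k, 1 ≤ k → k ≤ n → t + ε * k ≠ 0) (h : sy ε M (n + 1) ≫ T M n ◁ g = 0) : g = 0 := by
  induction n with
  | zero =>
    have h1 : (𝟙_ 𝒜) ◁ g = 0 := by simpa [sy] using h
    have h2 : g = (λ_ M).inv ≫ (𝟙_ 𝒜) ◁ g ≫ (λ_ M).hom := by simp
    rw [h2, h1, zero_comp, comp_zero]
  | succ n ih =>
    apply ih (fun k hk hkn => hn k hk (by omega))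
    have h1 : sy ε M (n + 2) ≫ sw (T M n) M ≫ T M (n + 1) ◁ g = 0 := by
      rw [← Category.assoc, sy_sw hε, Linear.smul_comp]
      rw [show sy ε M (n + 2) ≫ T M (n + 1) ◁ g = 0 from h, smul_zero]
    have h2 : sw (T M n) M ≫ T M (n + 1) ◁ g = (T M n ◁ g) ▷ M ≫ sw (T M n) M := by
      have h3 := whisker_sw (X := T M n) g
      have h4 : sw (T M n) M ≫ ((T M n ⊗ M) ◁ g ≫ sw (T M n) M) ≫ sw (T M n) M =
          sw (T M n) M ≫ (sw (T M n) M ≫ (T M n ◁ g) ▷ M) ≫ sw (T M n) M := by rw [h3]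
      simp only [Category.assoc, sw_sw, sw_sw_assoc, Category.comp_id] at h4
      exact h4
    rw [h2] at h1
    have h5 : sy ε M (n + 2) ≫ (T M n ◁ g) ▷ M = 0 := by
      have h6 : (sy ε M (n + 2) ≫ (T M n ◁ g) ▷ M ≫ sw (T M n) M) ≫ sw (T M n) M = 0 := by
        rw [h1, zero_comp]
      simpa only [Category.assoc, sw_sw, Category.comp_id] using h6
    have h7 := ptr_right (sy ε M (n + 2)) (T M n ◁ g)
    rw [h5, ptr_zero, ptr_sy hε htr (n + 1), Linear.smul_comp] at h7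
    have hc : (t + ε * ((n + 1 : ℕ) : ℚ)) / (((n + 1 : ℕ) : ℚ) + 1) ≠ 0 :=
      div_ne_zero (hn (n + 1) (by omega) le_rfl) (by positivity)
    exact (smul_eq_zero_iff_right hc).mp h7.symm

/-- The main identity: if the `(n + 1)`-st power `D` of `M` is such that the endomorphisms of
`D ⊗ M` come from `M`, then the next (anti)symmetriser is given by an endomorphism `g` of `M`. -/
lemma exists_next {n : ℕ} (hε : ε * ε = 1) {D : 𝒜} (i : D ⟶ T M (n + 1)) (r : T M (n + 1) ⟶ D)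
    (hri : r ≫ i = sy ε M (n + 1)) (hfull : ∀ w : D ⊗ M ⟶ D ⊗ M, ∃ g : M ⟶ M, w = D ◁ g) :
    ∃ g : M ⟶ M, sy ε M (n + 2) = sy ε M (n + 1) ▷ M ≫ T M (n + 1) ◁ g := by
  obtain ⟨g, hg⟩ := hfull (i ▷ M ≫ sy ε M (n + 2) ≫ r ▷ M)
  refine ⟨g, ?_⟩
  have hid := (isSy hε M (n + 1)).idem
  have e1 : sy ε M (n + 2) = r ▷ M ≫ (i ▷ M ≫ sy ε M (n + 2) ≫ r ▷ M) ≫ i ▷ M := by
    have e2 : r ▷ M ≫ (i ▷ M ≫ sy ε M (n + 2) ≫ r ▷ M) ≫ i ▷ M =
        (r ≫ i) ▷ M ≫ sy ε M (n + 2) ≫ (r ≫ i) ▷ M := by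
      simp only [comp_whiskerRight, Category.assoc]
    rw [e2, hri, absorb_right hid, absorb_left hid]
  rw [e1, hg]
  rw [whisker_exchange, ← comp_whiskerRight_assoc, hri]

/-- The scalar `κ` for which `g = κ`. -/
lemma next_scalar {n : ℕ} (hε : ε * ε = 1) {t : ℚ} (htr : tr (𝟙 M) = t • 𝟙 (𝟙_ 𝒜))
    (ht : ∀ k, 1 ≤ k → k ≤ n → t + ε * k ≠ 0) {g : M ⟶ M}
    (hg : sy ε M (n + 2) = sy ε M (n + 1) ▷ M ≫ T M (n + 1) ◁ g) :
    g = ((ε * t + (n + 1)) / (n + 2)) • 𝟙 M := by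
  rw [← sub_eq_zero]
  apply descend hε htr n ht
  have h1 : ptr (sy ε M (n + 2) ≫ sw (T M n) M) =
      sy ε M (n + 1) ≫ T M n ◁ g := by
    rw [hg, Category.assoc, ptr_left]
    rw [show T M (n + 1) ◁ g ≫ sw (T M n) M = (T M n ⊗ M) ◁ g ≫ sw (T M n) M from rfl,
      ptr_whisker_sw]
  rw [sy_sw hε, ptr_smul, ptr_sy hε htr (n + 1), smul_smul] at h1
  have h2 : T M n ◁ (g - ((ε * t + (n + 1)) / (n + 2)) • 𝟙 M) =
      T M n ◁ g - ((ε * t + (n + 1)) / (n + 2)) • 𝟙 (T M n ⊗ M) := by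
    rw [sub_eq_add_neg, MonoidalPreadditive.whiskerLeft_add, ← neg_one_smul ℚ,
      MonoidalLinear.whiskerLeft_smul, MonoidalLinear.whiskerLeft_smul, neg_one_smul,
      ← sub_eq_add_neg, MonoidalCategory.whiskerLeft_id]
  rw [h2, Preadditive.comp_sub, ← h1, Linear.comp_smul, Category.comp_id, sub_eq_zero]
  congr 1
  have e1 : ε * ((t + ε * ((n + 1 : ℕ) : ℚ)) / (((n + 1 : ℕ) : ℚ) + 1)) =
      (ε * t + (ε * ε) * (n + 1)) / (n + 2) := by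
    push_cast
    rw [← mul_div_assoc, add_assoc (n : ℚ) 1 1]
    norm_num
    ring
  rw [e1, hε, one_mul]

end trace

end Pool.Agent.Helper96.Kim
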