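import Pool.Agent.Helper96.KimTr

/-!
# Objects with an invertible power
-/

open CategoryTheory MonoidalCategory Limits BraidedCategory

universe u v w

namespace Pool.Agent.Helper96.Kim

open Pool.Agent.TH90.AB Pool.Agent.TH90.Kim

set_option linter.unusedSectionVars false

variable {𝒜 : Type u} [Category.{v} 𝒜] [MonoidalCategory 𝒜] [SymmetricCategory 𝒜]
  [Preadditive 𝒜] [MonoidalPreadditive 𝒜] [Linear ℚ 𝒜] [MonoidalLinear ℚ 𝒜]

section zero

/-- If the identity of the unit object is zero, then all morphisms are zero. -/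
lemma all_zero (h0 : 𝟙 (𝟙_ 𝒜) = 0) {X Y : 𝒜} (f : X ⟶ Y) : f = 0 := by
  have h1 : f = (ρ_ X).inv ≫ X ◁ 𝟙 (𝟙_ 𝒜) ≫ (ρ_ X).hom ≫ f := by simp
  rw [h1, h0, MonoidalPreadditive.whiskerLeft_zero, zero_comp, comp_zero]

lemma Invertible.ne_zero (h0 : 𝟙 (𝟙_ 𝒜) ≠ 0) {D : 𝒜} (hD : Invertible D) : 𝟙 D ≠ 0 := by
  obtain ⟨D', ⟨e⟩⟩ := hD
  intro h
  apply h0
  have h1 : 𝟙 (𝟙_ 𝒜) = e.inv ≫ (𝟙 D ▷ D') ≫ e.hom := by simp
  rw [h1, h, MonoidalPreadditive.zero_whiskerRight, zero_comp, comp_zero]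

/-- Tensoring with an invertible object is faithful. -/
lemma Invertible.faithful {D D' : 𝒜} (e : D ⊗ D' ≅ 𝟙_ 𝒜) {X Y : 𝒜} {f : X ⟶ Y}
    (h : f ▷ D = 0) : f = 0 := by
  have h1 : f = (ρ_ X).inv ≫ X ◁ e.inv ≫ (α_ X D D').inv ≫ (f ▷ D) ▷ D' ≫ (α_ Y D D').hom ≫
      Y ◁ e.hom ≫ (ρ_ Y).hom := by
    have e1 : (α_ X D D').inv ≫ (f ▷ D) ▷ D' ≫ (α_ Y D D').hom = f ▷ (D ⊗ D') := by simp
    have e2 : f ▷ (D ⊗ D') ≫ Y ◁ e.hom = X ◁ e.hom ≫ f ▷ 𝟙_ 𝒜 := by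
      rw [whisker_exchange]
    rw [reassoc_of% e1, reassoc_of% e2, ← whiskerLeft_comp_assoc, e.inv_hom_id]
    simp
  rw [h1, h]
  simp

/-- The endomorphisms of an invertible object are scalars. -/
lemma Invertible.scalar (hunit : ∀ f : 𝟙_ 𝒜 ⟶ 𝟙_ 𝒜, ∃ q : ℚ, f = q • 𝟙 (𝟙_ 𝒜)) {D : 𝒜}
    (hD : Invertible D) (f : D ⟶ D) : ∃ q : ℚ, f = q • 𝟙 D := by
  obtain ⟨D', ⟨e⟩⟩ := hD
  obtain ⟨q, hq⟩ := hunit (e.inv ≫ f ▷ D' ≫ e.hom)
  refine ⟨q, ?_⟩
  rw [← sub_eq_zero]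
  apply Invertible.faithful (D := D') (D' := D) ((β_ D' D) ≪≫ e)
  have h1 : f ▷ D' = q • 𝟙 (D ⊗ D') := by
    have : f ▷ D' = e.hom ≫ (e.inv ≫ f ▷ D' ≫ e.hom) ≫ e.inv := by simp
    rw [this, hq]
    simp
  have h2 : (f - q • 𝟙 D) ▷ D' = f ▷ D' - q • 𝟙 (D ⊗ D') := by
    rw [sub_eq_add_neg, MonoidalPreadditive.add_whiskerRight, ← neg_one_smul ℚ,
      MonoidalLinear.smul_whiskerRight, MonoidalLinear.smul_whiskerRight, id_whiskerRight,
      neg_one_smul, ← sub_eq_add_neg]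
  rw [h2, h1, sub_self]

lemma Invertible.tensor {D : 𝒜} (hD : Invertible D) : Invertible (D ⊗ D) := by
  obtain ⟨D', ⟨e⟩⟩ := hD
  refine ⟨D' ⊗ D', ⟨?_⟩⟩
  exact (α_ D D (D' ⊗ D')) ≪≫ whiskerLeftIso D ((α_ D D' D').symm ≪≫ whiskerRightIso e D' ≪≫
    λ_ D') ≪≫ e

end zero

lemma smul_id_inj {X : 𝒜} (hX : 𝟙 X ≠ 0) {a b : ℚ} (h : a • 𝟙 X = b • 𝟙 X) : a = b := by
  by_contra hab
  apply hX
  have h1 : (a - b) • 𝟙 X = 0 := by rw [sub_smul, h, sub_self]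
  exact (smul_eq_zero_iff_right (sub_ne_zero.mpr hab)).mp h1

section trace

variable [hdual : ∀ X : 𝒜, HasRightDual X]

/-- The symmetry and the dimension of an invertible object. -/
lemma Invertible.data (hunit : ∀ f : 𝟙_ 𝒜 ⟶ 𝟙_ 𝒜, ∃ q : ℚ, f = q • 𝟙 (𝟙_ 𝒜))
    (h0 : 𝟙 (𝟙_ 𝒜) ≠ 0) {D : 𝒜} (hD : Invertible D) :
    ∃ c : ℚ, c * c = 1 ∧ (β_ D D).hom = c • 𝟙 _ ∧ tr (𝟙 D) = c • 𝟙 (𝟙_ 𝒜) := by
  obtain ⟨c, hc⟩ := Invertible.scalar hunit hD.tensor (β_ D D).hom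
  obtain ⟨c', hc'⟩ := hunit (tr (𝟙 D))
  have hcc : c * c = 1 := by
    have h1 := SymmetricCategory.symmetry D D
    rw [hc, Linear.smul_comp, Linear.comp_smul, smul_smul, Category.comp_id] at h1
    exact smul_id_inj (hD.tensor.ne_zero h0) (h1.trans (one_smul _ _).symm)
  have h2 : c * c' = 1 := by
    have h1 := ptr_braiding D
    rw [hc, ptr_smul, ptr_id hc', smul_smul] at h1
    exact smul_id_inj (hD.ne_zero h0) (h1.trans (one_smul _ _).symm)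
  have h3 : c' = c := by
    calc c' = (c * c) * c' := by rw [hcc, one_mul]
      _ = c * (c * c') := by ring
      _ = c := by rw [h2, mul_one]
  exact ⟨c, hcc, hc, h3 ▸ hc'⟩

lemma tr_smul {X : 𝒜} (c : ℚ) (f : X ⟶ X) : tr (c • f) = c • tr f := by
  simp only [tr, MonoidalLinear.smul_whiskerRight, Linear.smul_comp, Linear.comp_smul]

/-- The dimension of the powers. -/
lemma tr_sy {ε t : ℚ} {M : 𝒜} (hε : ε * ε = 1) (htr : tr (𝟙 M) = t • 𝟙 (𝟙_ 𝒜)) (n : ℕ) :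
    tr (sy ε M n) = (∏ k ∈ Finset.range n, (t + ε * k) / (k + 1)) • 𝟙 (𝟙_ 𝒜) := by
  induction n with
  | zero =>
    simp only [sy, Finset.range_zero, Finset.prod_empty, one_smul]
    exact tr_id_unit
  | succ n ih =>
    rw [← tr_ptr (sy ε M (n + 1)), ptr_sy hε htr, tr_smul, ih, smul_smul,
      Finset.prod_range_succ, mul_comm]

/-- From a universal (anti)symmetric morphism we get a splitting of the (anti)symmetriser. -/
lemma IsPower.split {ε : ℚ} (hε : ε * ε = 1) {M D : 𝒜} {n : ℕ} (h : IsPower ε M n D) :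
    ∃ (i : D ⟶ T M n) (r : T M n ⟶ D), i ≫ r = 𝟙 D ∧ r ≫ i = sy ε M n := by
  obtain ⟨r, hr, huniv⟩ := h
  obtain ⟨i, hi, -⟩ := huniv _ _ (signed_sy hε M n)
  refine ⟨i, r, ?_, hi⟩
  obtain ⟨h, -, hu⟩ := huniv _ r hr
  have h1 : i ≫ r = h := hu _ (by
    change r ≫ i ≫ r = r
    rw [← Category.assoc, hi, sy_comp hε hr])
  have h2 : 𝟙 D = h := hu _ (Category.comp_id _)
  rw [h1, h2]

/-- The main theorem on powers `D` for which all endomorphisms of `D ⊗ M` come from `M`. -/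
theorem main_aux {ε : ℚ} (hε : ε * ε = 1) {M : 𝒜} {t : ℚ} (htr : tr (𝟙 M) = t • 𝟙 (𝟙_ 𝒜))
    (h0 : 𝟙 (𝟙_ 𝒜) ≠ 0) {n : ℕ} {D : 𝒜} (i : D ⟶ T M (n + 1)) (r : T M (n + 1) ⟶ D)
    (hir : i ≫ r = 𝟙 D) (hri : r ≫ i = sy ε M (n + 1)) {c : ℚ} (hc : c * c = 1)
    (hβ : (β_ D D).hom = c • 𝟙 _) (hD : tr (𝟙 D) = c • 𝟙 (𝟙_ 𝒜)) :
    (PowZero ε M (n + 2) ∧ t = -(ε * ((n + 1 : ℕ) : ℚ))) ∨ (PowZero (-ε) M 2 ∧ t = ε) := by
  have hc0 : c ≠ 0 := by
    rintro rfl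
    norm_num at hc
  have hprod : (∏ k ∈ Finset.range (n + 1), (t + ε * k) / (k + 1)) = c := by
    apply smul_id_inj h0
    rw [← tr_sy hε htr, ← hD, ← hri, tr_comm, hir]
  have ht : ∀ k : ℕ, k ≤ n → t + ε * k ≠ 0 := by
    intro k hk h
    apply hc0
    rw [← hprod]
    apply Finset.prod_eq_zero (Finset.mem_range.mpr (Nat.lt_succ_of_le hk))
    rw [h, zero_div]
  have ht0 : t ≠ 0 := by
    have := ht 0 (Nat.zero_le _)
    simpa using this
  obtain ⟨g, hg⟩ := exists_next hε i r hri (fun w => full_left hc hβ hD hc0 w)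
  have hg' := next_scalar hε htr (fun k _ hk => ht k hk) hg
  set κ : ℚ := (ε * t + (n + 1)) / (n + 2) with hκ
  have hE : sy ε M (n + 2) = κ • (sy ε M (n + 1) ▷ M) := by
    rw [hg, hg', MonoidalLinear.whiskerLeft_smul, Linear.comp_smul,
      MonoidalCategory.whiskerLeft_id, Category.comp_id]
  have hidE : sy ε M (n + 1) ▷ M ≫ sy ε M (n + 1) ▷ M = sy ε M (n + 1) ▷ M := by
    rw [← comp_whiskerRight, (isSy hε M (n + 1)).idem]
  have htrE : tr (sy ε M (n + 1) ▷ M) = (t * c) • 𝟙 (𝟙_ 𝒜) := by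
    rw [← tr_ptr (sy ε M (n + 1) ▷ M), ptr_whiskerRight _ htr, tr_smul, tr_sy hε htr, hprod,
      smul_smul]
  have hκκ : κ * κ = κ := by
    have h1 := (isSy hε M (n + 2)).idem
    rw [hE, Linear.smul_comp, Linear.comp_smul, smul_smul, hidE] at h1
    have h2 := congrArg tr h1
    rw [tr_smul, tr_smul, htrE, smul_smul, smul_smul] at h2
    have h3 := smul_id_inj h0 h2
    have h4 : t * c ≠ 0 := mul_ne_zero ht0 hc0
    exact mul_right_cancel₀ h4 h3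
  have hn2 : ((n : ℚ) + 2) ≠ 0 := by positivity
  have h01 : κ = 0 ∨ κ = 1 := by
    rcases eq_or_ne κ 0 with h | h
    · exact Or.inl h
    · exact Or.inr (mul_left_cancel₀ h (by rw [hκκ, mul_one]))
  rcases h01 with h | h
  · left
    constructor
    · rw [powZero_iff hε, hE, h, zero_smul]
    · rw [hκ, div_eq_zero_iff] at h
      have h1 := h.resolve_right hn2
      push_cast
      linear_combination ε * h1 - t * hε
  · right
    have hte : t = ε := by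
      rw [hκ, div_eq_one_iff_eq hn2] at h
      linear_combination ε * h - t * hε
    refine ⟨?_, hte⟩
    rw [h, one_smul] at hE
    have desc : ∀ k, k ≤ n → sy ε M (k + 2) = sy ε M (k + 1) ▷ M → sy ε M 2 = sy ε M 1 ▷ M := by
      intro k
      induction k with
      | zero => intro _ h; exact h
      | succ k ih =>
        intro hk h
        apply ih (by omega)
        have h1 : sw (T M (k + 1)) M ≫ sy ε M (k + 3) ≫ sw (T M (k + 1)) M = sy ε M (k + 3) := by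
          rw [sy_sw hε, Linear.comp_smul, sw_sy hε, smul_smul, hε, one_smul]
        rw [h] at h1
        have h2 := ptr_sw_conj (X := T M (k + 1)) (sy ε M (k + 2))
        rw [h1, ptr_whiskerRight _ htr, ptr_sy hε htr, MonoidalLinear.smul_whiskerRight, hte] at h2
        have h3 : (ε + ε * ((k + 1 : ℕ) : ℚ)) / (((k + 1 : ℕ) : ℚ) + 1) = ε := by
          have : (((k + 1 : ℕ) : ℚ) + 1) ≠ 0 := by positivity
          field_simp
          ring
        rw [h3] at h2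
        have hε0 : ε ≠ 0 := by
          rintro rfl
          norm_num at hε
        exact smul_right_injective _ hε0 h2
    have h2 := desc n le_rfl hE
    have h3 : sy ε M 2 = (2 : ℚ)⁻¹ • (𝟙 _ + ε • sw (T M 0) M) := by
      rw [sy_succ]
      simp [sy]
    rw [h3] at h2
    have h4 : (-ε) * (-ε) = 1 := by linear_combination hε
    rw [powZero_iff h4, sy_succ]
    have h5 : sy ε M 1 ▷ M = 𝟙 _ := by simp [sy]
    rw [h5] at h2
    have h6 : ε • sw (T M 0) M = 𝟙 _ := by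
      have h7 := congrArg (fun f => (2 : ℚ) • f) h2
      simp only [smul_smul] at h7
      rw [mul_inv_cancel₀ two_ne_zero, one_smul, two_smul] at h7
      exact add_left_cancel h7
    have h8 : sw (T M 0) M = ε • 𝟙 _ := by
      rw [← h6, smul_smul, hε, one_smul]
    simp only [sy, id_whiskerRight, Category.comp_id, Category.id_comp, h8]
    rw [smul_smul]
    have e1 : -ε * (((0 : ℕ) : ℚ) + 1) * ε = -1 := by
      push_cast
      linear_combination -hε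
    rw [e1, neg_one_smul, add_neg_cancel, smul_zero]

end trace

end Pool.Agent.Helper96.Kim
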