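import Pool.Agent.Helper96.KimMain

/-!
# Rank one objects and realisations
-/

open CategoryTheory MonoidalCategory Limits BraidedCategory

universe u v w

namespace Pool.Agent.Helper96.Kim

open Pool.Agent.TH90.AB Pool.Agent.TH90.Kim

set_option linter.unusedSectionVars false

variable {𝒜 : Type u} [Category.{v} 𝒜] [MonoidalCategory 𝒜] [SymmetricCategory 𝒜]
  [Preadditive 𝒜] [MonoidalPreadditive 𝒜] [Linear ℚ 𝒜] [MonoidalLinear ℚ 𝒜]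

section steps

variable [hdual : ∀ X : 𝒜, HasRightDual X]

lemma PowZero.up {ε : ℚ} (hε : ε * ε = 1) {M : 𝒜} {n : ℕ} (h : PowZero ε M (n + 1)) :
    PowZero ε M (n + 2) := by
  rw [powZero_iff hε] at h ⊢
  rw [← absorb_left (isSy hε M (n + 1)).idem, h, MonoidalPreadditive.zero_whiskerRight, zero_comp]

lemma PowZero.up' {ε : ℚ} (hε : ε * ε = 1) {M : 𝒜} {n m : ℕ} (h : PowZero ε M (n + 1))
    (hnm : n ≤ m) : PowZero ε M (m + 1) := by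
  induction m, hnm using Nat.le_induction with
  | base => exact h
  | succ m _ ih => exact PowZero.up hε ih

lemma PowZero.down {ε t : ℚ} (hε : ε * ε = 1) {M : 𝒜} (htr : tr (𝟙 M) = t • 𝟙 (𝟙_ 𝒜)) {n : ℕ}
    (hn : t + ε * n ≠ 0) (h : PowZero ε M (n + 1)) : PowZero ε M n := by
  rw [powZero_iff hε] at h ⊢
  have h1 := ptr_sy hε htr n
  rw [h, ptr_zero] at h1
  exact (smul_eq_zero_iff_right (div_ne_zero hn (by positivity))).mp h1.symm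

lemma PowZero.down' {ε t : ℚ} (hε : ε * ε = 1) {M : 𝒜} (htr : tr (𝟙 M) = t • 𝟙 (𝟙_ 𝒜)) {d m : ℕ}
    (hn : ∀ n : ℕ, d < n → t + ε * n ≠ 0) (hm : d ≤ m) (h : PowZero ε M (m + 1)) :
    PowZero ε M (d + 1) := by
  induction m, hm using Nat.le_induction with
  | base => exact h
  | succ m hm ih => exact ih (PowZero.down hε htr (hn (m + 1) (by omega)) h)

/-- The contraction of `ε ≫ η`. -/
lemma ptr_ev_coev (L : 𝒜) : ptr (ε_ L Lᘁ ≫ η_ L Lᘁ ≫ (β_ L Lᘁ).hom) = 𝟙 Lᘁ := by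
  have h1 : Lᘁ ◁ η_ L Lᘁ ≫ (α_ Lᘁ L Lᘁ).inv ≫ ε_ L Lᘁ ▷ Lᘁ = (ρ_ Lᘁ).hom ≫ (λ_ Lᘁ).inv :=
    ExactPairing.coevaluation_evaluation L Lᘁ
  have h2 : (η_ L Lᘁ ≫ (β_ L Lᘁ).hom) ▷ Lᘁ ≫ (α_ Lᘁ L Lᘁ).hom ≫ Lᘁ ◁ ev L =
      (λ_ Lᘁ).hom ≫ (ρ_ Lᘁ).inv := by
    have h3 := @ExactPairing.evaluation_coevaluation _ _ _ Lᘁ L (exactPairing_swap L Lᘁ)
    have h4 : (β_ Lᘁ L).inv = (β_ L Lᘁ).hom := by
      rw [← cancel_epi (β_ Lᘁ L).hom]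
      simp
    have h5 : @ExactPairing.coevaluation _ _ _ Lᘁ L (exactPairing_swap L Lᘁ) =
        η_ L Lᘁ ≫ (β_ Lᘁ L).inv := rfl
    have h6 : @ExactPairing.evaluation _ _ _ Lᘁ L (exactPairing_swap L Lᘁ) =
        (β_ L Lᘁ).hom ≫ ε_ L Lᘁ := rfl
    rw [h5, h6, h4] at h3
    exact h3
  simp only [ptr]
  have h7 : (ε_ L Lᘁ ≫ η_ L Lᘁ ≫ (β_ L Lᘁ).hom) ▷ Lᘁ =
      ε_ L Lᘁ ▷ Lᘁ ≫ (η_ L Lᘁ ≫ (β_ L Lᘁ).hom) ▷ Lᘁ := by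
    rw [← comp_whiskerRight]
  rw [h7, Category.assoc, reassoc_of% h1, reassoc_of% h2]
  simp

/-- An object with scalar symmetry and the right dimension is invertible. -/
lemma invertible_of_braiding {L : 𝒜} {c : ℚ} (hc : c * c = 1) (hβ : (β_ L L).hom = c • 𝟙 _)
    (htr : tr (𝟙 L) = c • 𝟙 (𝟙_ 𝒜)) : Invertible L := by
  have h1 := full_right hc hβ htr (ε_ L Lᘁ ≫ η_ L Lᘁ ≫ (β_ L Lᘁ).hom)
  rw [ptr_ev_coev, id_whiskerRight] at h1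
  have h2 : η_ L Lᘁ ≫ (β_ L Lᘁ).hom ≫ ε_ L Lᘁ = c • 𝟙 (𝟙_ 𝒜) := by
    rw [← htr, tr_eq]
    simp [ev]
  refine ⟨Lᘁ, ⟨(β_ L Lᘁ) ≪≫ ⟨ε_ L Lᘁ, c • (η_ L Lᘁ ≫ (β_ L Lᘁ).hom), ?_, ?_⟩⟩⟩
  · rw [Linear.comp_smul, h1]
  · rw [Linear.smul_comp, Category.assoc, h2, smul_smul, hc, one_smul]

end steps

end Pool.Agent.Helper96.Kim
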